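import Pool.Agent.Helper30.TG.Ori

/-!
# Project TG (helper30), parts BND, XC
-/

set_option autoImplicit false

namespace Pool.Agent.Helper30.TG

open Pool.Agent.Helper30.TriFace
open scoped Classical

variable {p : ℕ → ℝ × ℝ} {n : ℕ}

theorem dst (hp : Pos p n) : Dst (sl p) (ic p) (EE n) := by
  intro e he g hg heg hs hi
  have hl : ∀ t, ln (sl p) (ic p) e t = ln (sl p) (ic p) g t := by
    intro t
    unfold ln
    rw [hs, hi]
  have he' := mem_EE.1 he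
  have hg' := mem_EE.1 hg
  have hO := (ori p n hp).2.1
  by_cases h1 : g.1 ≠ e.1 ∧ g.1 ≠ e.2
  · refine hO e he g.1 (by omega) h1.1 h1.2 ?_
    rw [hl, ln_left]
  · by_cases h2 : g.2 ≠ e.1 ∧ g.2 ≠ e.2
    · refine hO e he g.2 (by omega) h2.1 h2.2 ?_
      rw [hl, ln_right hp hg]
    · apply heg
      have h1' : g.1 = e.1 ∨ g.1 = e.2 := by tauto
      have h2' : g.2 = e.1 ∨ g.2 = e.2 := by tauto
      ext <;> omega

/-- the two sides at a vertex -/
theorem sides_at (hn : 3 ≤ n) {j : ℕ} (hj : j < n) : ∃ s1 ∈ PE n, ∃ s2 ∈ PE n, ∃ k1 k2 : ℕ,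
    k1 < n ∧ k2 < n ∧ k1 ≠ j ∧ k2 ≠ j ∧ k1 ≠ k2 ∧ s1 ≠ s2 ∧ (s1 = (j, k1) ∨ s1 = (k1, j)) ∧
    (s2 = (j, k2) ∨ s2 = (k2, j)) := by
  rcases Nat.eq_zero_or_pos j with h0 | h0
  · subst h0
    refine ⟨(0, 1), ?_, (0, n - 1), ?_, 1, n - 1, ?_, ?_, ?_, ?_, ?_, ?_, ?_, ?_⟩
    · rw [mem_PE]; simp; omega
    · rw [mem_PE]; simp; omega
    · omega
    · omega
    · omega
    · omega
    · omega
    · intro h
      have := congrArg Prod.snd h
      simp at this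
      omega
    · simp
    · simp
  · rcases Nat.lt_or_ge j (n - 1) with h1 | h1
    · refine ⟨(j - 1, j), ?_, (j, j + 1), ?_, j - 1, j + 1, ?_, ?_, ?_, ?_, ?_, ?_, ?_, ?_⟩
      · rw [mem_PE]; simp; omega
      · rw [mem_PE]; simp; omega
      · omega
      · omega
      · omega
      · omega
      · omega
      · intro h
        have := congrArg Prod.snd h
        simp at this
      · simp
      · simp
    · have : j = n - 1 := by omega
      subst this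
      refine ⟨(0, n - 1), ?_, (n - 2, n - 1), ?_, 0, n - 2, ?_, ?_, ?_, ?_, ?_, ?_, ?_, ?_⟩
      · rw [mem_PE]; simp; omega
      · rw [mem_PE]; simp; omega
      · omega
      · omega
      · omega
      · omega
      · omega
      · intro h
        have := congrArg Prod.fst h
        simp at this
        omega
      · simp
      · simp

/-- the line of a chord with ends `j`, `k` at its ends -/
theorem ln_ends (hp : Pos p n) {s : ℕ × ℕ} {j k : ℕ} (hs : s ∈ EE n) (h : s = (j, k) ∨ s = (k, j)) :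
    ln (sl p) (ic p) s (p j).1 = (p j).2 ∧ ln (sl p) (ic p) s (p k).1 = (p k).2 := by
  rcases h with h | h
  · have h1 := ln_left (p := p) s
    have h2 := ln_right hp hs
    rw [h] at h1 h2 ⊢
    exact ⟨h1, h2⟩
  · have h1 := ln_left (p := p) s
    have h2 := ln_right hp hs
    rw [h] at h1 h2 ⊢
    exact ⟨h2, h1⟩

theorem PE_sub {e : ℕ × ℕ} (he : e ∈ PE n) : e ∈ EE n := (Finset.mem_filter.1 he).1

/-- the vertices and the sides -/
theorem side_vertex (hp : Pos p n) {U : Finset (ℕ × ℕ)} (hU : ∀ e ∈ PE n, (e ∈ U ↔ Up p n e))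
    {s : ℕ × ℕ} (hs : s ∈ PE n) {k : ℕ} (hk : k < n) (h1 : k ≠ s.1) (h2 : k ≠ s.2) :
    (s ∈ U ∧ (p k).2 < ln (sl p) (ic p) s (p k).1) ∨
      (s ∉ U ∧ ln (sl p) (ic p) s (p k).1 < (p k).2) := by
  have hO := (ori p n hp).2.2 s hs
  by_cases h : Up p n s
  · exact Or.inl ⟨(hU s hs).2 h, h k hk h1 h2⟩
  · right
    refine ⟨fun hc => h ((hU s hs).1 hc), ?_⟩
    rcases hO with hO | hO
    · exact absurd hO h
    · exact hO k hk h1 h2

/-- the wedge of two lines of different sides through a vertex -/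
theorem wedge {u1 b1 u2 b2 tj yj t1 y1 t2 y2 x y : ℝ} {P1 P2 : Prop}
    (a1 : u1 * tj + b1 = yj) (a2 : u2 * tj + b2 = yj) (h1 : u1 * t1 + b1 = y1)
    (h2 : u2 * t2 + b2 = y2)
    (A : (P1 ∧ y2 < u1 * t2 + b1) ∨ (¬ P1 ∧ u1 * t2 + b1 < y2))
    (B : (P2 ∧ y1 < u2 * t1 + b2) ∨ (¬ P2 ∧ u2 * t1 + b2 < y1))
    (hs : 0 < (t1 - tj) * (t2 - tj))
    (q1 : (P1 → y < u1 * x + b1) ∧ (¬ P1 → u1 * x + b1 < y))
    (q2 : (P2 → y < u2 * x + b2) ∧ (¬ P2 → u2 * x + b2 < y)) :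
    0 < (x - tj) * (t1 - tj) ∧ ((P1 ∧ ¬ P2) ∨ (¬ P1 ∧ P2)) := by
  have e1 : y2 - (u1 * t2 + b1) = (u2 - u1) * (t2 - tj) := by
    rw [← h2]; linear_combination a2 - a1
  have e2 : y1 - (u2 * t1 + b2) = (u1 - u2) * (t1 - tj) := by
    rw [← h1]; linear_combination a1 - a2
  have e3 : (u2 * x + b2) - (u1 * x + b1) = (u2 - u1) * (x - tj) := by
    linear_combination a2 - a1
  rcases A with ⟨p1, A⟩ | ⟨p1, A⟩ <;> rcases B with ⟨p2, B⟩ | ⟨p2, B⟩
  · exfalso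
    have f1 : (u2 - u1) * (t2 - tj) < 0 := by linarith
    have f2 : (u1 - u2) * (t1 - tj) < 0 := by linarith
    nlinarith [mul_pos_of_neg_of_neg f1 f2, mul_nonneg (sq_nonneg (u1 - u2)) hs.le]
  · have f1 : (u2 - u1) * (t2 - tj) < 0 := by linarith
    have g1 := q1.1 p1
    have g2 := q2.2 p2
    have f3 : (u2 - u1) * (x - tj) < 0 := by linarith
    refine ⟨?_, Or.inl ⟨p1, p2⟩⟩
    have f4 := mul_pos_of_neg_of_neg f1 f3
    have f5 : 0 < (u2 - u1) ^ 2 * ((t2 - tj) * (x - tj)) := by nlinarith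
    have f6 : 0 < (t2 - tj) * (x - tj) := by
      by_contra hc
      push Not at hc
      nlinarith [sq_nonneg (u2 - u1), mul_nonneg (sq_nonneg (u2 - u1)) (neg_nonneg.2 hc)]
    have f7 := mul_pos hs f6
    have f8 : 0 < (t2 - tj) ^ 2 * ((x - tj) * (t1 - tj)) := by nlinarith
    by_contra hc
    push Not at hc
    nlinarith [mul_nonneg (sq_nonneg (t2 - tj)) (neg_nonneg.2 hc)]
  · have f1 : 0 < (u2 - u1) * (t2 - tj) := by linarith
    have g1 := q1.2 p1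
    have g2 := q2.1 p2
    have f3 : 0 < (u2 - u1) * (x - tj) := by linarith
    refine ⟨?_, Or.inr ⟨p1, p2⟩⟩
    have f4 := mul_pos f1 f3
    have f5 : 0 < (u2 - u1) ^ 2 * ((t2 - tj) * (x - tj)) := by nlinarith
    have f6 : 0 < (t2 - tj) * (x - tj) := by
      by_contra hc
      push Not at hc
      nlinarith [sq_nonneg (u2 - u1), mul_nonneg (sq_nonneg (u2 - u1)) (neg_nonneg.2 hc)]
    have f7 := mul_pos hs f6
    have f8 : 0 < (t2 - tj) ^ 2 * ((x - tj) * (t1 - tj)) := by nlinarith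
    by_contra hc
    push Not at hc
    nlinarith [mul_nonneg (sq_nonneg (t2 - tj)) (neg_nonneg.2 hc)]
  · exfalso
    have f1 : 0 < (u2 - u1) * (t2 - tj) := by linarith
    have f2 : 0 < (u1 - u2) * (t1 - tj) := by linarith
    nlinarith [mul_pos f1 f2, mul_nonneg (sq_nonneg (u1 - u2)) hs.le]

/-- at a vertex such that its two sides go to the same side -/
theorem vertex_wedge (hp : Pos p n) {U : Finset (ℕ × ℕ)}
    (hU : ∀ e ∈ PE n, (e ∈ U ↔ Up p n e)) {q : ℝ × ℝ}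
    (hq : q ∈ Cel (sl p) (ic p) (EE n) U) {s1 s2 : ℕ × ℕ} (hs1 : s1 ∈ PE n) (hs2 : s2 ∈ PE n)
    {j k1 k2 : ℕ} (hj : j < n) (hk1 : k1 < n) (hk2 : k2 < n) (h1j : k1 ≠ j) (h2j : k2 ≠ j)
    (h12 : k1 ≠ k2) (e1 : s1 = (j, k1) ∨ s1 = (k1, j)) (e2 : s2 = (j, k2) ∨ s2 = (k2, j))
    (hs : 0 < ((p k1).1 - (p j).1) * ((p k2).1 - (p j).1)) :
    0 < (q.1 - (p j).1) * ((p k1).1 - (p j).1) ∧ ((s1 ∈ U ∧ s2 ∉ U) ∨ (s1 ∉ U ∧ s2 ∈ U)) := by
  obtain ⟨a1, c1⟩ := ln_ends hp (PE_sub hs1) e1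
  obtain ⟨a2, c2⟩ := ln_ends hp (PE_sub hs2) e2
  have n1 : k2 ≠ s1.1 ∧ k2 ≠ s1.2 := by
    rcases e1 with h | h <;> rw [h] <;> constructor <;> simp <;> omega
  have n2 : k1 ≠ s2.1 ∧ k1 ≠ s2.2 := by
    rcases e2 with h | h <;> rw [h] <;> constructor <;> simp <;> omega
  have A := side_vertex hp hU hs1 hk2 n1.1 n1.2
  have B := side_vertex hp hU hs2 hk1 n2.1 n2.2
  exact wedge a1 a2 c1 c2 A B hs (hq s1 (PE_sub hs1)) (hq s2 (PE_sub hs2))

theorem bnd : S_BND := by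
  intro p n hn hp
  refine ⟨dst hp, ?_⟩
  intro U hU
  unfold Fc at hU
  rw [Finset.mem_filter, Finset.mem_powerset] at hU
  obtain ⟨hUE, hne, hPE⟩ := hU
  have hr : (Finset.range n).Nonempty := ⟨0, Finset.mem_range.2 (by omega)⟩
  obtain ⟨j, hj, hmax⟩ := Finset.exists_max_image (Finset.range n) (fun k => (p k).1) hr
  obtain ⟨i, hi, hmin⟩ := Finset.exists_min_image (Finset.range n) (fun k => (p k).1) hr
  rw [Finset.mem_range] at hj hi
  have hdiff : ∀ k l, k < n → l < n → k ≠ l → (p k).1 ≠ (p l).1 := by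
    intro k l hk hl hkl
    rcases lt_or_gt_of_ne hkl with h | h
    · exact hp.2 k l h hl
    · exact (hp.2 l k h hk).symm
  obtain ⟨s1, hs1, s2, hs2, k1, k2, hk1, hk2, h1j, h2j, h12, -, e1, e2⟩ := sides_at hn hj
  obtain ⟨r1, hr1, r2, hr2, l1, l2, hl1, hl2, g1i, g2i, g12, -, f1, f2⟩ := sides_at hn hi
  have m1 : (p k1).1 < (p j).1 :=
    lt_of_le_of_ne (hmax k1 (Finset.mem_range.2 hk1)) (hdiff k1 j hk1 hj h1j)
  have m2 : (p k2).1 < (p j).1 :=
    lt_of_le_of_ne (hmax k2 (Finset.mem_range.2 hk2)) (hdiff k2 j hk2 hj h2j)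
  have m3 : (p i).1 < (p l1).1 :=
    lt_of_le_of_ne (hmin l1 (Finset.mem_range.2 hl1)) (hdiff l1 i hl1 hi g1i).symm
  have m4 : (p i).1 < (p l2).1 :=
    lt_of_le_of_ne (hmin l2 (Finset.mem_range.2 hl2)) (hdiff l2 i hl2 hi g2i).symm
  have R : ∀ q ∈ Cel (sl p) (ic p) (EE n) U, q.1 < (p j).1 ∧
      ((s1 ∈ U ∧ s2 ∉ U) ∨ (s1 ∉ U ∧ s2 ∈ U)) := by
    intro q hq
    obtain ⟨h, h'⟩ := vertex_wedge hp hPE hq hs1 hs2 hj hk1 hk2 h1j h2j h12 e1 e2
      (mul_pos_of_neg_of_neg (by linarith) (by linarith))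
    refine ⟨?_, h'⟩
    by_contra hc
    push Not at hc
    nlinarith
  have L : ∀ q ∈ Cel (sl p) (ic p) (EE n) U, (p i).1 < q.1 := by
    intro q hq
    obtain ⟨h, -⟩ := vertex_wedge hp hPE hq hr1 hr2 hi hl1 hl2 g1i g2i g12 f1 f2
      (mul_pos (by linarith) (by linarith))
    by_contra hc
    push Not at hc
    nlinarith
  refine ⟨hUE, hne, ⟨max |(p i).1| |(p j).1|, ?_⟩, ?_⟩
  · intro q hq
    rw [abs_le]
    constructor
    · have := L q hq
      have h2 := neg_abs_le (p i).1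
      have h3 := le_max_left |(p i).1| |(p j).1|
      linarith
    · have := (R q hq).1
      have h2 := le_abs_self (p j).1
      have h3 := le_max_right |(p i).1| |(p j).1|
      linarith
  · obtain ⟨q, hq⟩ := hne
    rcases (R q hq).2 with h | h
    · exact ⟨⟨s1, h.1⟩, s2, PE_sub hs2, h.2⟩
    · exact ⟨⟨s2, h.2⟩, s1, PE_sub hs1, h.1⟩

theorem ipt_eq (hp : Pos p n) {e g : ℕ × ℕ} (he : e ∈ EE n) (hg : g ∈ EE n) (heg : e ≠ g)
    {x : ℝ × ℝ} (h1 : x.2 = ln (sl p) (ic p) e x.1) (h2 : x.2 = ln (sl p) (ic p) g x.1) :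
    ipt p e g = x ∧ sl p e ≠ sl p g := by
  have hs : sl p e ≠ sl p g := by
    intro h
    have := dst hp e he g hg heg h
    unfold ln at h1 h2
    rw [h] at h1
    apply this
    linarith
  have hs' : sl p e - sl p g ≠ 0 := sub_ne_zero.2 hs
  have h3 : (ic p g - ic p e) / (sl p e - sl p g) = x.1 := by
    rw [div_eq_iff hs']
    unfold ln at h1 h2
    linarith
  refine ⟨?_, hs⟩
  unfold ipt
  rw [h3, ← h1]

theorem xc : S_XC := by
  intro p n hn hp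
  have key : ∀ x, x ∈ Xc p n ↔ ∃ e ∈ EE n, ∃ g ∈ EE n, e ≠ g ∧ On p e x ∧ On p g x := by
    intro x
    unfold Xc
    rw [Finset.mem_image]
    constructor
    · rintro ⟨⟨e, g⟩, h, rfl⟩
      rw [Finset.mem_filter, Finset.mem_product] at h
      exact ⟨e, h.1.1, g, h.1.2, h.2.1, h.2.2.1, h.2.2.2⟩
    · rintro ⟨e, he, g, hg, heg, h1, h2⟩
      have h3 := (ipt_eq hp he hg heg h1.1 h2.1).1
      refine ⟨(e, g), ?_, h3⟩
      rw [Finset.mem_filter, Finset.mem_product]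
      simp only [h3]
      exact ⟨⟨he, hg⟩, heg, h1, h2⟩
  refine ⟨key, ?_⟩
  intro x hx
  obtain ⟨e, he, g, hg, heg, h1, h2⟩ := (key x).1 hx
  unfold mu
  have : ({e, g} : Finset (ℕ × ℕ)).card = 2 := Finset.card_pair heg
  rw [← this]
  apply Finset.card_le_card
  intro k hk
  rw [Finset.mem_insert, Finset.mem_singleton] at hk
  rw [Finset.mem_filter]
  rcases hk with rfl | rfl
  · exact ⟨he, h1⟩
  · exact ⟨hg, h2⟩

end Pool.Agent.Helper30.TG
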