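import Pool.Agent.Helper30.Tri8

/-!
# Project TG (helper30): the case `n = 3`
-/

set_option autoImplicit false

namespace Pool.Agent.Helper30.TG

open Pool.Agent.Helper30.TriFace Set

theorem det_nonneg_hull {S : Set (ℝ × ℝ)} {a b x : ℝ × ℝ} (h : ∀ y ∈ S, 0 ≤ det3 a b y)
    (hx : x ∈ convexHull ℝ S) : 0 ≤ det3 a b x := by
  have hc : Convex ℝ {y : ℝ × ℝ | 0 ≤ det3 a b y} := by
    intro y hy z hz s t hs ht hst
    simp only [mem_ofPred_eq] at hy hz ⊢
    rw [det3_comb _ _ _ _ hst]
    positivity
  exact convexHull_min (fun y hy => h y hy) hc hx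

theorem num_three (D : ConvexDrawing 3) : numThreeFaces D = 1 := by
  obtain ⟨σ, hσ⟩ := exists_ccw (by norm_num) D.convexPosition
  obtain ⟨D', h1, h2⟩ := num_relabel D σ
  rw [← h2]
  rw [← h1] at hσ
  obtain ⟨a, ha⟩ : ∃ a, D'.pt 0 = a := ⟨_, rfl⟩
  obtain ⟨b, hb⟩ : ∃ b, D'.pt 1 = b := ⟨_, rfl⟩
  obtain ⟨c, hc⟩ : ∃ c, D'.pt 2 = c := ⟨_, rfl⟩
  have hd : 0 < det3 a b c := by
    have := hσ 0 1 2 (by decide) (by decide)
    rwa [ha, hb, hc] at this
  have hr : range D'.pt = {a, b, c} := by
    ext x
    simp only [mem_range, mem_insert_iff, mem_singleton_iff]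
    constructor
    · rintro ⟨i, rfl⟩
      fin_cases i
      · exact Or.inl ha
      · exact Or.inr (Or.inl hb)
      · exact Or.inr (Or.inr hc)
    · rintro (rfl | rfl | rfl)
      · exact ⟨0, ha⟩
      · exact ⟨1, hb⟩
      · exact ⟨2, hc⟩
  have d1 : 0 < det3 b c a := by rwa [det3_cyc] at hd
  have d2 : det3 a c b < 0 := by
    rw [det3_swap]
    linarith
  have hint : interior (convexHull ℝ {a, b, c}) =
      {x | 0 < det3 b c x ∧ det3 a c x < 0 ∧ 0 < det3 a b x} :=
    interior_triangle hd.ne' (det3_left b c) (det3_right b c) d1 (det3_left a c) (det3_right a c)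
      d2 (det3_left a b) (det3_right a b) hd
  have hsw : ∀ x : ℝ × ℝ, det3 c a x = - det3 a c x := by
    intro x
    unfold det3
    ring
  have hsw' : ∀ u v x : ℝ × ℝ, det3 v u x = - det3 u v x := by
    intro u v x
    unfold det3
    ring
  have hW : convexHull ℝ (range D'.pt) \ edges D' = interior (convexHull ℝ {a, b, c}) := by
    rw [hint]
    ext x
    simp only [mem_ofPred_eq]
    constructor
    · intro hx
      have hx' := hx.1
      rw [hr] at hx'
      have e1 : 0 ≤ det3 b c x := by
        refine det_nonneg_hull ?_ hx'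
        rintro y (rfl | rfl | rfl)
        · exact d1.le
        · rw [det3_left]
        · rw [det3_right]
      have e2 : 0 ≤ det3 c a x := by
        refine det_nonneg_hull ?_ hx'
        rintro y (rfl | rfl | rfl)
        · rw [det3_right]
        · rw [hsw]; linarith
        · rw [det3_left]
      have e3 : 0 ≤ det3 a b x := by
        refine det_nonneg_hull ?_ hx'
        rintro y (rfl | rfl | rfl)
        · rw [det3_left]
        · rw [det3_right]
        · exact hd.le
      have f1 := not_zero_of_mem D' hx (i := 1) (j := 2) (by decide)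
      have f2 := not_zero_of_mem D' hx (i := 2) (j := 0) (by decide)
      have f3 := not_zero_of_mem D' hx (i := 0) (j := 1) (by decide)
      rw [hb, hc] at f1
      rw [hc, ha] at f2
      rw [ha, hb] at f3
      refine ⟨lt_of_le_of_ne e1 f1.symm, ?_, lt_of_le_of_ne e3 f3.symm⟩
      have := lt_of_le_of_ne e2 f2.symm
      rw [hsw] at this
      linarith
    · rintro ⟨e1, e2, e3⟩
      refine ⟨?_, ?_⟩
      · rw [hr]
        apply interior_subset
        rw [hint]
        exact ⟨e1, e2, e3⟩
      · rintro ⟨i, j, hij, hx⟩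
        have h0 := seg_det hx
        fin_cases i <;> fin_cases j <;> simp at hij h0 <;>
          simp only [ha, hb, hc] at h0
        · linarith
        · linarith
        · rw [hsw' a b] at h0; linarith
        · linarith
        · rw [hsw' a c] at h0; linarith
        · rw [hsw' b c] at h0; linarith
  have hconv : IsPreconnected (interior (convexHull ℝ {a, b, c})) :=
    (convex_convexHull ℝ _).interior.isPreconnected
  have hface : ∀ x ∈ interior (convexHull ℝ {a, b, c}),
      connectedComponentIn (interior (convexHull ℝ {a, b, c})) x =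
        interior (convexHull ℝ {a, b, c}) := by
    intro x hx
    exact hconv.connectedComponentIn hx
  have hne : (interior (convexHull ℝ {a, b, c})).Nonempty := by
    rw [hint]
    refine ⟨(1 / 3 : ℝ) • a + (1 / 3 : ℝ) • b + (1 / 3 : ℝ) • c, ?_, ?_, ?_⟩
    · rw [det3_comb3 _ _ _ _ _ (by norm_num), det3_left, det3_right]; linarith
    · rw [det3_comb3 _ _ _ _ _ (by norm_num), det3_left, det3_right]; linarith
    · rw [det3_comb3 _ _ _ _ _ (by norm_num), det3_left, det3_right]; linarith
  have hset : {F | IsThreeFace D' F} = {interior (convexHull ℝ {a, b, c})} := by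
    ext F
    simp only [mem_ofPred_eq, mem_singleton_iff]
    constructor
    · rintro ⟨⟨x, hx, rfl⟩, -⟩
      rw [hW] at hx ⊢
      exact hface x hx
    · rintro rfl
      obtain ⟨x, hx⟩ := hne
      refine ⟨⟨x, ?_, ?_⟩, a, b, c, affInd_of_det hd.ne', rfl⟩
      · rw [hW]; exact hx
      · rw [hW, hface x hx]
  unfold numThreeFaces
  rw [hset, ncard_singleton]

end Pool.Agent.Helper30.TG
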