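import Pool.Agent.Helper30.TG.Spec

/-!
# Project TG (helper30), part ORI
-/

set_option autoImplicit false

namespace Pool.Agent.Helper30.TG

open Pool.Agent.Helper30.TriFace
open scoped Classical

variable {p : ℕ → ℝ × ℝ} {n : ℕ}

theorem mem_EE {e : ℕ × ℕ} : e ∈ EE n ↔ e.1 < e.2 ∧ e.2 < n := by
  unfold EE
  simp only [Finset.mem_filter, Finset.mem_product, Finset.mem_range]
  omega

theorem mem_PE {e : ℕ × ℕ} : e ∈ PE n ↔ e.1 < e.2 ∧ e.2 < n ∧
    (e.2 = e.1 + 1 ∨ (e.1 = 0 ∧ e.2 = n - 1)) := by
  unfold PE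
  rw [Finset.mem_filter, mem_EE]
  tauto

theorem ne_of_EE (hp : Pos p n) {e : ℕ × ℕ} (he : e ∈ EE n) : (p e.2).1 - (p e.1).1 ≠ 0 := by
  rw [mem_EE] at he
  have := hp.2 e.1 e.2 he.1 he.2
  intro h
  exact this (by linarith)

theorem ln_left (e : ℕ × ℕ) : ln (sl p) (ic p) e (p e.1).1 = (p e.1).2 := by
  unfold ln ic
  ring

theorem ln_right (hp : Pos p n) {e : ℕ × ℕ} (he : e ∈ EE n) :
    ln (sl p) (ic p) e (p e.2).1 = (p e.2).2 := by
  have h := ne_of_EE hp he
  have hs : sl p e * ((p e.2).1 - (p e.1).1) = (p e.2).2 - (p e.1).2 := by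
    unfold sl
    field_simp
  unfold ln ic
  linarith

theorem det3_ln (hp : Pos p n) {e : ℕ × ℕ} (he : e ∈ EE n) (q : ℝ × ℝ) :
    det3 (p e.1) (p e.2) q =
      ((p e.2).1 - (p e.1).1) * (q.2 - ln (sl p) (ic p) e q.1) := by
  have h := ne_of_EE hp he
  have hs : sl p e * ((p e.2).1 - (p e.1).1) = (p e.2).2 - (p e.1).2 := by
    unfold sl
    field_simp
  unfold ln ic det3
  linear_combination (q.1 - (p e.1).1) * hs

/-- orientation of a vertex with respect to a chord -/
theorem det3_in (hp : Pos p n) {i j k : ℕ} (hij : i < j) (hj : j < n) (hik : i < k) (hkj : k < j) :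
    det3 (p i) (p j) (p k) < 0 := by
  have := hp.1 i k j hik hkj hj
  rw [det3_swap]
  linarith

theorem det3_out (hp : Pos p n) {i j k : ℕ} (hij : i < j) (hj : j < n) (hk : k < n)
    (h : k < i ∨ j < k) : 0 < det3 (p i) (p j) (p k) := by
  rcases h with h | h
  · have := hp.1 k i j h hij hj
    rwa [det3_cyc] at this
  · exact hp.1 i j k hij h hk

theorem det3_ne_zero (hp : Pos p n) {i j k : ℕ} (hij : i < j) (hj : j < n) (hk : k < n)
    (hki : k ≠ i) (hkj : k ≠ j) : det3 (p i) (p j) (p k) ≠ 0 := by
  rcases Nat.lt_or_ge k i with h | h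
  · exact (det3_out hp hij hj hk (Or.inl h)).ne'
  · rcases Nat.lt_or_ge j k with h' | h'
    · exact (det3_out hp hij hj hk (Or.inr h')).ne'
    · exact (det3_in hp hij hj (by omega) (by omega)).ne

theorem ori : S_ORI := by
  intro p n hp
  refine ⟨fun e he => ⟨(ln_left e).symm, (ln_right hp he).symm, det3_ln hp he⟩, ?_, ?_⟩
  · intro e he k hk h1 h2 h
    have h3 := det3_ln hp he (p k)
    rw [h, sub_self, mul_zero] at h3
    rw [mem_EE] at he
    exact det3_ne_zero hp he.1 he.2 hk h1 h2 h3
  · intro e he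
    have he' : e ∈ EE n := (Finset.mem_filter.1 he).1
    rw [mem_PE] at he
    obtain ⟨h12, h2n, h⟩ := he
    have hne := ne_of_EE hp he'
    -- the sign of det3
    have key : (∀ k < n, k ≠ e.1 → k ≠ e.2 → 0 < det3 (p e.1) (p e.2) (p k)) ∨
        ∀ k < n, k ≠ e.1 → k ≠ e.2 → det3 (p e.1) (p e.2) (p k) < 0 := by
      rcases h with h | ⟨h1, h2⟩
      · left
        intro k hk hk1 hk2
        exact det3_out hp h12 h2n hk (by omega)
      · right
        intro k hk hk1 hk2
        exact det3_in hp h12 h2n (by omega) (by omega)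
    rcases lt_or_gt_of_ne hne with h0 | h0
    · rcases key with key | key
      · left
        intro k hk hk1 hk2
        have := key k hk hk1 hk2
        rw [det3_ln hp he'] at this
        nlinarith
      · right
        intro k hk hk1 hk2
        have := key k hk hk1 hk2
        rw [det3_ln hp he'] at this
        nlinarith
    · rcases key with key | key
      · right
        intro k hk hk1 hk2
        have := key k hk hk1 hk2
        rw [det3_ln hp he'] at this
        by_contra hc
        push_neg at hc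
        nlinarith
      · left
        intro k hk hk1 hk2
        have := key k hk hk1 hk2
        rw [det3_ln hp he'] at this
        by_contra hc
        push_neg at hc
        nlinarith

end Pool.Agent.Helper30.TG
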