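import Pool.Agent.Helper30.TG.Fin
import Pool.Agent.Helper30.TG.Three
import Pool.Agent.Helper30.TG.Bnd
import Pool.Agent.Helper30.Tri8
import Pool.Agent.Helper36.TG.HUL
import Pool.Agent.Helper36.TG.INS
import Pool.Agent.Helper36.TG.TRG
import Pool.Agent.Helper36.TG.FACE3
import Pool.Agent.Helper53.TG.ARI
import Pool.Agent.Helper53.TG.TOT
import Pool.Agent.Helper67.TG.SIX
import Pool.Agent.Helper67.TG.GD1
import Pool.Agent.Helper79.TG.FAC
import Pool.Agent.Helper79.TG.ISF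
import Pool.Agent.Helper85.TG.GE3
import Pool.Agent.Helper85.TG.OPP
import Pool.Agent.Helper85.TG.TRI
import Pool.Agent.Helper89.TG.LIN
import Pool.Agent.Helper89.TG.SHR
import Pool.Agent.Helper9.TG.CNT
import Pool.Agent.Helper9.TG.CN1
import Pool.Agent.Helper9.TG.CN3
import Pool.Agent.Helper9.TG.CN4
import Pool.Agent.Helper94.TG.NB
import Pool.Agent.Helper94.TG.SYM
import Pool.Agent.Helper94.TG.PAIR
import Pool.Agent.Helper97.TG.QUAD
import Pool.Agent.Helper97.TG.NZ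
import Pool.Agent.Helper97.TG.CN2

/-!
Triangular faces in convex drawings of complete graphs: the exact value of `t_gen(n)` and a lower
bound for `t(n)`.
-/

namespace Pool.Agent.Helper30.TG.Asm

open Pool.Agent.Helper30.TriFace Pool.Agent.Helper30.TG

theorem hNZ : S_NZ := Pool.Agent.Helper97.TG.NZ.main
theorem hCN2 : S_CN2 := Pool.Agent.Helper97.TG.CN2.main
theorem hFAC : S_FAC := Pool.Agent.Helper79.TG.FAC.main
theorem hGE3 : S_GE3 := Pool.Agent.Helper85.TG.GE3.main hFAC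
theorem hNB : S_NB := Pool.Agent.Helper94.TG.NB.main
theorem hTRI : S_TRI := Pool.Agent.Helper85.TG.TRI.main hFAC hNB
theorem hQUAD : S_QUAD := Pool.Agent.Helper97.TG.QUAD.main hGE3 hNB
  (Pool.Agent.Helper85.TG.OPP.main hNB Pool.Agent.Helper94.TG.SYM.main)
  Pool.Agent.Helper94.TG.PAIR.main
theorem hINS : S_INS := Pool.Agent.Helper36.TG.INS.main
theorem hCNT : S_CNT := Pool.Agent.Helper9.TG.CNT.main hCN2 (Pool.Agent.Helper9.TG.CN3.main bnd)
  (Pool.Agent.Helper9.TG.CN4.main bnd Pool.Agent.Helper9.TG.CN1.main)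
theorem hSIX : S_SIX := Pool.Agent.Helper67.TG.six hINS hNZ
theorem hSEG : S_SEG := Pool.Agent.Helper67.TG.seg hNZ hSIX
theorem hGDC : S_GDC := Pool.Agent.Helper67.TG.gdc hSIX (Pool.Agent.Helper67.TG.gd1 hNZ xc hINS)
theorem hTOT : S_TOT := Pool.Agent.Helper53.TG.TOT.main hNZ xc
theorem hARI : S_ARI := Pool.Agent.Helper53.TG.ARI.main bnd hGE3 hTRI hQUAD hCNT hSEG hGDC hTOT xc
theorem hISF : S_ISF := Pool.Agent.Helper79.TG.ISF.main Pool.Agent.Helper36.TG.HUL.main ori

theorem hFIN : S_FIN := fin hARI (Pool.Agent.Helper36.TG.FACE3.main hISF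
  (Pool.Agent.Helper36.TG.TRG.main hFAC hGE3) bnd) Pool.Agent.Helper89.TG.SHR.main
  (Pool.Agent.Helper89.TG.GEN.main xc)

theorem t_le_tgen (n : ℕ) : t n ≤ tgen n := by
  have h1 : numThreeFaces (D0 n) ∈
      {k | ∃ D : ConvexDrawing n, IsGeneric D ∧ numThreeFaces D = k} :=
    ⟨D0 n, generic_D0 n, rfl⟩
  refine csInf_le_csInf (OrderBot.bddBelow _) ⟨_, h1⟩ ?_
  rintro k ⟨D, -, hD⟩
  exact ⟨D, hD⟩

theorem tgen_le {n : ℕ} (hn : 4 ≤ n) : tgen n ≤ n * (n - 3) + (n - 4).choose 2 := by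
  have h1 : numThreeFaces (D0 n) ∈
      {k | ∃ D : ConvexDrawing n, IsGeneric D ∧ numThreeFaces D = k} :=
    ⟨D0 n, generic_D0 n, rfl⟩
  exact (csInf_le (OrderBot.bddBelow _) h1).trans (num_D0 hn)

theorem t_three : t 3 = 1 := by
  have : {k | ∃ D : ConvexDrawing 3, numThreeFaces D = k} = {1} := by
    ext k
    simp only [Set.mem_ofPred_eq, Set.mem_singleton_iff]
    constructor
    · rintro ⟨D, rfl⟩
      exact num_three D
    · rintro rfl
      exact ⟨D0 3, num_three _⟩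
  unfold t
  rw [this, csInf_singleton]

theorem tgen_three : tgen 3 = 1 := by
  have : {k | ∃ D : ConvexDrawing 3, IsGeneric D ∧ numThreeFaces D = k} = {1} := by
    ext k
    simp only [Set.mem_ofPred_eq, Set.mem_singleton_iff]
    constructor
    · rintro ⟨D, -, rfl⟩
      exact num_three D
    · rintro rfl
      exact ⟨D0 3, generic_D0 3, num_three _⟩
  unfold tgen
  rw [this, csInf_singleton]

theorem val {n : ℕ} (hn : 4 ≤ n) :
    2 * (n * (n - 3) + (n - 4).choose 2) + 15 * n = 3 * n ^ 2 + 20 := by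
  obtain ⟨k, rfl⟩ : ∃ k, n = k + 4 := ⟨n - 4, by omega⟩
  have h1 : k + 4 - 3 = k + 1 := by omega
  have h2 : k + 4 - 4 = k := by omega
  rw [h1, h2]
  have h3 : 2 * k.choose 2 + k = k ^ 2 := by
    rcases Nat.eq_zero_or_pos k with h | h
    · subst h; rfl
    · rw [Nat.choose_two_right, Nat.mul_div_cancel' (Nat.even_mul_pred_self k).two_dvd]
      obtain ⟨m, rfl⟩ : ∃ m, k = m + 1 := ⟨k - 1, by omega⟩
      simp only [Nat.add_sub_cancel]
      ring
  nlinarith

theorem exact_gen {n : ℕ} (hn : 3 ≤ n) : 2 * tgen n + 15 * n = 3 * n ^ 2 + 20 := by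
  rcases Nat.eq_or_lt_of_le hn with h | h
  · subst h
    rw [tgen_three]
    norm_num
  · rw [le_antisymm (tgen_le h) (hFIN n h).2]
    exact val h

theorem bounds_t {n : ℕ} (hn : 3 ≤ n) :
    4 * n ^ 2 + 24 ≤ 3 * t n + 19 * n ∧ 2 * t n + 15 * n ≤ 3 * n ^ 2 + 20 := by
  constructor
  · rcases Nat.eq_or_lt_of_le hn with h | h
    · subst h
      rw [t_three]
      norm_num
    · exact (hFIN n h).1
  · rw [← exact_gen hn]
    have := t_le_tgen n
    omega

end Pool.Agent.Helper30.TG.Asm
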