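import Pool.Agent.Helper30.Tri8

/-!
# Project TG (helper30), page MP_c17047_co: exact value of `t_gen(n)`, new lower bound for `t(n)`

Definitions.
-/

set_option autoImplicit false

namespace Pool.Agent.Helper30.TG

open Pool.Agent.Helper30.TriFace
open scoped Classical

section abstract

variable {ι : Type} (a b : ι → ℝ)

/-- the line `e` (slope `a e`, intercept `b e`), as a function of the abscissa -/
def ln (e : ι) (t : ℝ) : ℝ := a e * t + b e

/-- the cell with the lines of `U` above it and the lines of `E \ U` below it -/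
def Cel (E U : Finset ι) : Set (ℝ × ℝ) :=
  {q | ∀ e ∈ E, (e ∈ U → q.2 < ln a b e q.1) ∧ (e ∉ U → ln a b e q.1 < q.2)}

/-- at abscissa `t` the point of the line `e` is on the boundary of the cell `U`, on no other line -/
def EdgAt (E U : Finset ι) (e : ι) (t : ℝ) : Prop :=
  ∀ g ∈ E, g ≠ e → (g ∈ U → ln a b e t < ln a b g t) ∧ (g ∉ U → ln a b g t < ln a b e t)

/-- the edges (sides) of the cell `U` -/
noncomputable def Bd (E U : Finset ι) : Finset ι := E.filter fun e => ∃ t, EdgAt a b E U e t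

/-- distinct indices are distinct lines -/
def Dst (E : Finset ι) : Prop := ∀ e ∈ E, ∀ g ∈ E, e ≠ g → a e = a g → b e ≠ b g

/-- `U` is a nonempty cell, bounded in the direction of the abscissa, with lines on both sides -/
def BC (E U : Finset ι) : Prop :=
  U ⊆ E ∧ (Cel a b E U).Nonempty ∧ (∃ M : ℝ, ∀ q ∈ Cel a b E U, |q.1| ≤ M) ∧ U.Nonempty ∧
    ∃ e ∈ E, e ∉ U

/-- the sign of the ordinate of the meeting point of two lines through `(t0, 0)` and `(t1, 0)`,
`t0 < t1`, with slopes `α, β` (parallel lines meet at the far right) -/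
def NA (α β : ℝ) : Prop := 0 < α * β * (β - α) ∨ (α = β ∧ 0 < α)

/-- `(t0, t1)` is an open segment of the line `e` cut by no line; exactly one line `g` goes through
the left end and exactly one line `h` goes through the right end (a tight segment) -/
def Tt (E : Finset ι) (e g h : ι) (t0 t1 : ℝ) : Prop :=
  e ∈ E ∧ g ∈ E ∧ h ∈ E ∧ g ≠ e ∧ h ≠ e ∧ t0 < t1 ∧
  ln a b g t0 = ln a b e t0 ∧ ln a b h t1 = ln a b e t1 ∧
  (∀ k ∈ E, k ≠ e → ln a b k t0 = ln a b e t0 → k = g) ∧
  (∀ k ∈ E, k ≠ e → ln a b k t1 = ln a b e t1 → k = h) ∧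
  ∀ k ∈ E, k ≠ e → ∀ t, t0 < t → t < t1 → ln a b k t ≠ ln a b e t

/-- the side `e` of `U` with left neighbour `g` and right neighbour `h` is narrowing: the lines
`g` and `h` meet on the side of the cell -/
def Nrw (U : Finset ι) (e g h : ι) : Prop :=
  (e ∈ U → ¬ NA (a g - a e) (a h - a e)) ∧ (e ∉ U → NA (a g - a e) (a h - a e))

/-- a side which is not tight or narrowing -/
def Good (E U : Finset ι) (e : ι) : Prop :=
  (∃ t, EdgAt a b E U e t) ∧
    ∀ g h t0 t1 t, Tt a b E e g h t0 t1 → t0 < t → t < t1 → EdgAt a b E U e t → Nrw a U e g h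

/-- the good sides -/
noncomputable def GB (E U : Finset ι) : Finset ι := E.filter fun e => Good a b E U e

end abstract

section polygon

variable (p : ℕ → ℝ × ℝ)

/-- the slope of the chord `e` -/
noncomputable def sl (e : ℕ × ℕ) : ℝ := ((p e.2).2 - (p e.1).2) / ((p e.2).1 - (p e.1).1)

/-- the intercept of the chord `e` -/
noncomputable def ic (e : ℕ × ℕ) : ℝ := (p e.1).2 - sl p e * (p e.1).1

/-- all pairs -/
def EE (n : ℕ) : Finset (ℕ × ℕ) := (Finset.range n ×ˢ Finset.range n).filter fun e => e.1 < e.2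

/-- the sides of the polygon -/
def PE (n : ℕ) : Finset (ℕ × ℕ) := (EE n).filter fun e => e.2 = e.1 + 1 ∨ (e.1 = 0 ∧ e.2 = n - 1)

/-- strictly convex position in counterclockwise order, different abscissas -/
def Pos (n : ℕ) : Prop :=
  (∀ i j k, i < j → j < k → k < n → 0 < det3 (p i) (p j) (p k)) ∧
    ∀ i j, i < j → j < n → (p i).1 ≠ (p j).1

/-- all other vertices are below the line `e` -/
def Up (n : ℕ) (e : ℕ × ℕ) : Prop :=
  ∀ k < n, k ≠ e.1 → k ≠ e.2 → (p k).2 < ln (sl p) (ic p) e (p k).1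

/-- the cells inside the polygon -/
noncomputable def Fc (n : ℕ) : Finset (Finset (ℕ × ℕ)) :=
  (EE n).powerset.filter fun U => (Cel (sl p) (ic p) (EE n) U).Nonempty ∧
    ∀ e ∈ PE n, (e ∈ U ↔ Up p n e)

/-- `x` is an interior point of the chord `e` -/
def On (e : ℕ × ℕ) (x : ℝ × ℝ) : Prop :=
  x.2 = ln (sl p) (ic p) e x.1 ∧ (x.1 - (p e.1).1) * (x.1 - (p e.2).1) < 0

/-- the meeting point of two lines -/
noncomputable def ipt (e g : ℕ × ℕ) : ℝ × ℝ :=
  ((ic p g - ic p e) / (sl p e - sl p g),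
    ln (sl p) (ic p) e ((ic p g - ic p e) / (sl p e - sl p g)))

/-- the crossing points -/
noncomputable def Xc (n : ℕ) : Finset (ℝ × ℝ) :=
  ((EE n ×ˢ EE n).filter fun eg => eg.1 ≠ eg.2 ∧ On p eg.1 (ipt p eg.1 eg.2) ∧
    On p eg.2 (ipt p eg.1 eg.2)).image fun eg => ipt p eg.1 eg.2

/-- the multiplicity of a point -/
noncomputable def mu (n : ℕ) (x : ℝ × ℝ) : ℕ := ((EE n).filter fun e => On p e x).card

/-- the number of crossing points on the chord `e` -/
noncomputable def cr (n : ℕ) (e : ℕ × ℕ) : ℕ := ((Xc p n).filter fun x => On p e x).card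

/-- the number of crossing points of multiplicity at least `3` on the chord `e` -/
noncomputable def ns (n : ℕ) (e : ℕ × ℕ) : ℕ :=
  ((Xc p n).filter fun x => On p e x ∧ 3 ≤ mu p n x).card

/-- the number of sides of a cell -/
noncomputable def kk (n : ℕ) (U : Finset (ℕ × ℕ)) : ℕ := (Bd (sl p) (ic p) (EE n) U).card

/-- the number of triangular cells -/
noncomputable def TT (n : ℕ) : ℕ := ((Fc p n).filter fun U => kk p n U = 3).card

end polygon

end Pool.Agent.Helper30.TG
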