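import Pool.Agent.Helper30.TG.Spec
import Pool.Agent.Helper30.Tri4

/-!
# Project TG (helper30), part FIN
-/

set_option autoImplicit false

namespace Pool.Agent.Helper30.TG

open Pool.Agent.Helper30.TriFace
open scoped Classical

theorem fin (hARI : S_ARI) (hF : S_FACE3) (hS : S_SHR) (hG : S_GEN) : S_FIN := by
  intro n hn
  have h0 : numThreeFaces (D0 n) ∈
      {k | ∃ D : ConvexDrawing n, IsGeneric D ∧ numThreeFaces D = k} :=
    ⟨D0 n, generic_D0 n, rfl⟩
  constructor
  · obtain ⟨D, hD⟩ : t n ∈ {k | ∃ D : ConvexDrawing n, numThreeFaces D = k} :=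
      Nat.sInf_mem ⟨_, D0 n, rfl⟩
    obtain ⟨D', p, hpD, hp, hnum, -⟩ := hS n D (by omega)
    have h1 := hF n D' p hpD (by omega) hp
    have h2 := (hARI p n hn hp).1
    rw [hnum, hD] at h1
    omega
  · obtain ⟨D, hgen, hD⟩ : tgen n ∈
        {k | ∃ D : ConvexDrawing n, IsGeneric D ∧ numThreeFaces D = k} := Nat.sInf_mem ⟨_, h0⟩
    obtain ⟨D', p, hpD, hp, hnum, hg⟩ := hS n D (by omega)
    have h1 := hF n D' p hpD (by omega) hp
    have h2 := (hARI p n hn hp).2 (hG n D' p hpD (by omega) hp (hg hgen))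
    rw [hnum, hD] at h1
    exact h2.trans h1

end Pool.Agent.Helper30.TG
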