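import Pool.Agent.Helper30.TG.Defs

/-!
# Project TG (helper30): the parts, as propositions

`numThreeFaces`, `IsGeneric`, ... are in `Pool.Agent.Helper30.TriDefs`; `det3` and its lemmas are in
`Pool.Agent.Helper30.Tri5`, `Tri7`; `sign_const`, `threeFaces_finite` in `Tri8`; `exists_ccw`,
`num_relabel` in `Tri6`.
-/

set_option autoImplicit false

namespace Pool.Agent.Helper30.TG

open Pool.Agent.Helper30.TriFace
open scoped Classical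

/-! ### A. Cells of line arrangements -/

/-- `e` is a tight side of the cell `U` with left neighbour `g` and right neighbour `h` -/
def Tig {ι : Type} (a b : ι → ℝ) (E U : Finset ι) (e g h : ι) : Prop :=
  ∃ t0 t1 t, Tt a b E e g h t0 t1 ∧ t0 < t ∧ t < t1 ∧ EdgAt a b E U e t

/-- FAC: the sides of a cell define it. -/
def S_FAC : Prop := ∀ {ι : Type} (a b : ι → ℝ) (E U : Finset ι), Dst a b E → U ⊆ E →
  (Cel a b E U).Nonempty → ∀ q : ℝ × ℝ,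
  (∀ e ∈ Bd a b E U, (e ∈ U → q.2 < ln a b e q.1) ∧ (e ∉ U → ln a b e q.1 < q.2)) →
  q ∈ Cel a b E U

/-- GE3: a bounded cell has at least three sides, on both sides. -/
def S_GE3 : Prop := ∀ {ι : Type} (a b : ι → ℝ) (E U : Finset ι), Dst a b E → BC a b E U →
  3 ≤ (Bd a b E U).card ∧ (∃ e ∈ Bd a b E U, e ∈ U) ∧ ∃ e ∈ Bd a b E U, e ∉ U

/-- NB: the neighbours of a tight side are sides. -/
def S_NB : Prop := ∀ {ι : Type} (a b : ι → ℝ) (E U : Finset ι) (e g h : ι) (t0 t1 t : ℝ),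
  Dst a b E → Tt a b E e g h t0 t1 → t0 < t → t < t1 → EdgAt a b E U e t →
  g ≠ h ∧ g ∈ Bd a b E U ∧ h ∈ Bd a b E U ∧ (g ∈ U ↔ a e < a g) ∧ (h ∈ U ↔ a h < a e) ∧
  (a g ≠ a e) ∧ (a h ≠ a e) ∧ ∀ s, t0 < s → s < t1 → EdgAt a b E U e s

/-- TRI: all sides of a triangular cell are good. -/
def S_TRI : Prop := ∀ {ι : Type} (a b : ι → ℝ) (E U : Finset ι), Dst a b E → BC a b E U →
  (Bd a b E U).card = 3 → 3 ≤ (GB a b E U).card

/-- SYM: the neighbour relation between tight sides is symmetric. -/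
def S_SYM : Prop := ∀ {ι : Type} (a b : ι → ℝ) (E U : Finset ι) (e g h x y : ι),
  Dst a b E → Tig a b E U e g h →
  (Tig a b E U g x y → e = x ∨ e = y) ∧ (Tig a b E U h x y → e = x ∨ e = y)

/-- OPP: tight sides of a quadrangular cell. -/
def S_OPP : Prop := ∀ {ι : Type} (a b : ι → ℝ) (E U : Finset ι) (e g h f x y : ι),
  Dst a b E → U ⊆ E → (Cel a b E U).Nonempty → f ≠ e → f ≠ g → f ≠ h →
  Bd a b E U = {e, g, h, f} → Tig a b E U e g h →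
  (Tig a b E U f x y → (x = g ∧ y = h) ∨ (x = h ∧ y = g)) ∧
  (Tig a b E U g x y → (x = e ∧ y = f) ∨ (x = f ∧ y = e)) ∧
  (Tig a b E U h x y → (x = e ∧ y = f) ∨ (x = f ∧ y = e))

/-- PAIR: of two tight sides with the same two neighbours at least one is narrowing. -/
def S_PAIR : Prop := ∀ {ι : Type} (a b : ι → ℝ) (E U : Finset ι) (e g h f x y : ι),
  Dst a b E → e ≠ f → Tig a b E U e g h → Tig a b E U f x y →
  ((x = g ∧ y = h) ∨ (x = h ∧ y = g)) →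
  (e ∈ U ∨ f ∈ U ∨ g ∈ U ∨ h ∈ U) → (e ∉ U ∨ f ∉ U ∨ g ∉ U ∨ h ∉ U) →
  Nrw a U e g h ∨ Nrw a U f x y

/-- QUAD: a quadrangular cell has at least two good sides. -/
def S_QUAD : Prop := ∀ {ι : Type} (a b : ι → ℝ) (E U : Finset ι), Dst a b E → BC a b E U →
  (Bd a b E U).card = 4 → 2 ≤ (GB a b E U).card

/-- TRG: a triangular cell is a triangle. -/
def S_TRG : Prop := ∀ {ι : Type} (a b : ι → ℝ) (E U : Finset ι), Dst a b E → BC a b E U →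
  (Bd a b E U).card = 3 → ∃ x y z : ℝ × ℝ, AffineIndependent ℝ ![x, y, z] ∧
    Cel a b E U = interior (convexHull ℝ {x, y, z})

/-! ### B. Chords of a convex polygon -/

/-- ORI: orientation. -/
def S_ORI : Prop := ∀ (p : ℕ → ℝ × ℝ) (n : ℕ), Pos p n →
  (∀ e ∈ EE n, (p e.1).2 = ln (sl p) (ic p) e (p e.1).1 ∧
    (p e.2).2 = ln (sl p) (ic p) e (p e.2).1 ∧
    ∀ q : ℝ × ℝ, det3 (p e.1) (p e.2) q =
      ((p e.2).1 - (p e.1).1) * (q.2 - ln (sl p) (ic p) e q.1)) ∧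
  (∀ e ∈ EE n, ∀ k < n, k ≠ e.1 → k ≠ e.2 → (p k).2 ≠ ln (sl p) (ic p) e (p k).1) ∧
  ∀ e ∈ PE n, Up p n e ∨
    ∀ k < n, k ≠ e.1 → k ≠ e.2 → ln (sl p) (ic p) e (p k).1 < (p k).2

/-- BND: the lines are distinct, the cells inside the polygon are bounded. -/
def S_BND : Prop := ∀ (p : ℕ → ℝ × ℝ) (n : ℕ), 3 ≤ n → Pos p n →
  Dst (sl p) (ic p) (EE n) ∧ ∀ U ∈ Fc p n, BC (sl p) (ic p) (EE n) U

/-- INS: the sides of the cells inside the polygon are on the open chords. -/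
def S_INS : Prop := ∀ (p : ℕ → ℝ × ℝ) (n : ℕ), 3 ≤ n → Pos p n → ∀ U ∈ Fc p n, ∀ e ∈ EE n,
  ∀ t, EdgAt (sl p) (ic p) (EE n) U e t → (t - (p e.1).1) * (t - (p e.2).1) < 0

/-- XC: the crossing points. -/
def S_XC : Prop := ∀ (p : ℕ → ℝ × ℝ) (n : ℕ), 3 ≤ n → Pos p n →
  (∀ x, x ∈ Xc p n ↔ ∃ e ∈ EE n, ∃ g ∈ EE n, e ≠ g ∧ On p e x ∧ On p g x) ∧
  ∀ x ∈ Xc p n, 2 ≤ mu p n x

/-- NZ: a line meeting the open chord `e` comes from a crossing chord. -/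
def S_NZ : Prop := ∀ (p : ℕ → ℝ × ℝ) (n : ℕ), 3 ≤ n → Pos p n → ∀ e ∈ EE n, ∀ t : ℝ,
  (t - (p e.1).1) * (t - (p e.2).1) < 0 → ∀ k ∈ EE n, k ≠ e →
  ln (sl p) (ic p) k t = ln (sl p) (ic p) e t →
  e ∉ PE n ∧ k ∉ PE n ∧ On p e (t, ln (sl p) (ic p) e t) ∧ On p k (t, ln (sl p) (ic p) e t) ∧
    (t, ln (sl p) (ic p) e t) ∈ Xc p n

/-- the chord `g` goes from `x` to the right -/
def RG (p : ℕ → ℝ × ℝ) (n : ℕ) (x : ℝ × ℝ) (g : ℕ × ℕ) : Prop :=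
  g ∈ EE n ∧ ((x = p g.1 ∧ x.1 < (p g.2).1) ∨ (x = p g.2 ∧ x.1 < (p g.1).1) ∨ On p g x)

/-- the cell just to the right of `x`, just above the line `g` -/
noncomputable def Uc (p : ℕ → ℝ × ℝ) (n : ℕ) (x : ℝ × ℝ) (g : ℕ × ℕ) : Finset (ℕ × ℕ) :=
  (EE n).filter fun e => x.2 < ln (sl p) (ic p) e x.1 ∨
    (x.2 = ln (sl p) (ic p) e x.1 ∧ sl p g < sl p e)

/-- the crossing points and the vertices -/
noncomputable def VX (p : ℕ → ℝ × ℝ) (n : ℕ) : Finset (ℝ × ℝ) :=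
  Xc p n ∪ (Finset.range n).image p

/-- the pairs (point, right-going chord which is not the upper one) -/
noncomputable def WW (p : ℕ → ℝ × ℝ) (n : ℕ) : Finset ((ℝ × ℝ) × (ℕ × ℕ)) :=
  (VX p n ×ˢ EE n).filter fun xg => RG p n xg.1 xg.2 ∧
    ∃ g', RG p n xg.1 g' ∧ sl p xg.2 < sl p g'

/-- CN1: the cell `Uc x g` is inside the polygon, `x` is a limit of its points. -/
def S_CN1 : Prop := ∀ (p : ℕ → ℝ × ℝ) (n : ℕ), 3 ≤ n → Pos p n → ∀ x ∈ VX p n, ∀ g g',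
  RG p n x g → RG p n x g' → sl p g < sl p g' → Uc p n x g ∈ Fc p n ∧
    ∀ ε : ℝ, 0 < ε → ∃ q ∈ Cel (sl p) (ic p) (EE n) (Uc p n x g),
      |q.1 - x.1| < ε ∧ |q.2 - x.2| < ε

/-- CN2: the pairs at the vertices. -/
def S_CN2 : Prop := ∀ (p : ℕ → ℝ × ℝ) (n : ℕ), 3 ≤ n → Pos p n →
  (n - 1).choose 2 ≤ ((WW p n).filter fun xg => xg.1 ∈ (Finset.range n).image p).card

/-- CN3: the pairs at the crossing points. -/
def S_CN3 : Prop := ∀ (p : ℕ → ℝ × ℝ) (n : ℕ), 3 ≤ n → Pos p n →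
  Disjoint (Xc p n) ((Finset.range n).image p) ∧
  ∑ x ∈ Xc p n, (mu p n x - 1) ≤ ((WW p n).filter fun xg => xg.1 ∈ Xc p n).card

/-- CN4: the cells `Uc x g` are different. -/
def S_CN4 : Prop := ∀ (p : ℕ → ℝ × ℝ) (n : ℕ), 3 ≤ n → Pos p n → (WW p n).card ≤ (Fc p n).card

/-- CNT: the number of cells. -/
def S_CNT : Prop := ∀ (p : ℕ → ℝ × ℝ) (n : ℕ), 3 ≤ n → Pos p n →
  (n - 1).choose 2 + ∑ x ∈ Xc p n, (mu p n x - 1) ≤ (Fc p n).card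

/-- the number of crossing points on `e` to the left of the abscissa `t` -/
noncomputable def ix (p : ℕ → ℝ × ℝ) (n : ℕ) (e : ℕ × ℕ) (t : ℝ) : ℕ :=
  ((Xc p n).filter fun x => On p e x ∧ x.1 < t).card

/-- SIX: two cells with a side on the same segment of `e` agree, except for `e`. -/
def S_SIX : Prop := ∀ (p : ℕ → ℝ × ℝ) (n : ℕ), 3 ≤ n → Pos p n → ∀ e ∈ EE n,
  ∀ U ∈ Fc p n, ∀ U' ∈ Fc p n, ∀ t t', EdgAt (sl p) (ic p) (EE n) U e t →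
  EdgAt (sl p) (ic p) (EE n) U' e t' → ix p n e t = ix p n e t' →
  (∀ k ∈ EE n, k ≠ e → (k ∈ U ↔ k ∈ U')) ∧
  ∀ s, min t t' ≤ s → s ≤ max t t' →
    EdgAt (sl p) (ic p) (EE n) U e s ∧ EdgAt (sl p) (ic p) (EE n) U' e s

/-- SEG: the number of cells with a side on `e`. -/
def S_SEG : Prop := ∀ (p : ℕ → ℝ × ℝ) (n : ℕ), 3 ≤ n → Pos p n → ∀ e ∈ EE n,
  ((Fc p n).filter fun U => e ∈ Bd (sl p) (ic p) (EE n) U).card ≤ 2 * (1 + cr p n e) ∧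
  (e ∈ PE n → ((Fc p n).filter fun U => e ∈ Bd (sl p) (ic p) (EE n) U).card ≤ 1)

/-- GD1: if both cells at a segment of `e` are good then the segment is not tight. -/
def S_GD1 : Prop := ∀ (p : ℕ → ℝ × ℝ) (n : ℕ), 3 ≤ n → Pos p n → ∀ e ∈ EE n,
  ∀ U ∈ Fc p n, ∀ U' ∈ Fc p n, e ∈ U → e ∉ U' → ∀ t, EdgAt (sl p) (ic p) (EE n) U e t →
  EdgAt (sl p) (ic p) (EE n) U' e t → Good (sl p) (ic p) (EE n) U e →
  Good (sl p) (ic p) (EE n) U' e →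
  ix p n e t = 0 ∨ ix p n e t = cr p n e ∨ ∃ x ∈ Xc p n, On p e x ∧ 3 ≤ mu p n x ∧
    (ix p n e x.1 + 1 = ix p n e t ∨ ix p n e x.1 = ix p n e t)

/-- GDC: the number of cells for which `e` is a good side. -/
def S_GDC : Prop := ∀ (p : ℕ → ℝ × ℝ) (n : ℕ), 3 ≤ n → Pos p n → ∀ e ∈ EE n,
  ((Fc p n).filter fun U => Good (sl p) (ic p) (EE n) U e).card ≤
    (1 + cr p n e) + 2 + 2 * ns p n e

/-- TOT: double counting. -/
def S_TOT : Prop := ∀ (p : ℕ → ℝ × ℝ) (n : ℕ), 3 ≤ n → Pos p n →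
  ∑ e ∈ EE n, cr p n e = ∑ x ∈ Xc p n, mu p n x ∧
  ∑ e ∈ EE n, ns p n e = ∑ x ∈ (Xc p n).filter (fun x => 3 ≤ mu p n x), mu p n x ∧
  (EE n).card = n.choose 2 ∧ (PE n).card = n ∧ PE n ⊆ EE n ∧
  ∀ e ∈ PE n, cr p n e = 0 ∧ ns p n e = 0

/-- ARI: the lower bounds for the number of triangular cells. -/
def S_ARI : Prop := ∀ (p : ℕ → ℝ × ℝ) (n : ℕ), 4 ≤ n → Pos p n →
  4 * n ^ 2 + 24 ≤ 3 * TT p n + 19 * n ∧
  ((∀ x ∈ Xc p n, mu p n x = 2) → n * (n - 3) + (n - 4).choose 2 ≤ TT p n)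

/-! ### C. Drawings -/

/-- HUL: a point strictly inside all sides is in the convex hull. -/
def S_HUL : Prop := ∀ (p : ℕ → ℝ × ℝ) (n : ℕ), 3 ≤ n → Pos p n → ∀ q : ℝ × ℝ,
  (∀ e ∈ PE n, (Up p n e → q.2 < ln (sl p) (ic p) e q.1) ∧
    (¬ Up p n e → ln (sl p) (ic p) e q.1 < q.2)) →
  q ∈ convexHull ℝ (p '' {k | k < n})

/-- ISF: the cells inside the polygon are faces. -/
def S_ISF : Prop := ∀ (n : ℕ) (D : ConvexDrawing n) (p : ℕ → ℝ × ℝ),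
  (∀ i : Fin n, p i = D.pt i) → 3 ≤ n → Pos p n → ∀ U ∈ Fc p n,
  IsFace D (Cel (sl p) (ic p) (EE n) U)

/-- FACE3: triangular cells are three-faces. -/
def S_FACE3 : Prop := ∀ (n : ℕ) (D : ConvexDrawing n) (p : ℕ → ℝ × ℝ),
  (∀ i : Fin n, p i = D.pt i) → 3 ≤ n → Pos p n → TT p n ≤ numThreeFaces D

/-- LIN: shears. -/
def S_LIN : Prop := ∀ (n : ℕ) (D : ConvexDrawing n) (c : ℝ), ∃ D' : ConvexDrawing n,
  (∀ i, D'.pt i = ((D.pt i).1 + c * (D.pt i).2, (D.pt i).2)) ∧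
  numThreeFaces D' = numThreeFaces D ∧ (IsGeneric D → IsGeneric D')

/-- SHR: every drawing has a copy in special position. -/
def S_SHR : Prop := ∀ (n : ℕ) (D : ConvexDrawing n), 3 ≤ n →
  ∃ (D' : ConvexDrawing n) (p : ℕ → ℝ × ℝ), (∀ i : Fin n, p i = D'.pt i) ∧ Pos p n ∧
    numThreeFaces D' = numThreeFaces D ∧ (IsGeneric D → IsGeneric D')

/-- GEN: generic drawings have simple crossings. -/
def S_GEN : Prop := ∀ (n : ℕ) (D : ConvexDrawing n) (p : ℕ → ℝ × ℝ),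
  (∀ i : Fin n, p i = D.pt i) → 3 ≤ n → Pos p n → IsGeneric D → ∀ x ∈ Xc p n, mu p n x = 2

/-- FIN: the lower bounds. -/
def S_FIN : Prop := ∀ n : ℕ, 4 ≤ n → 4 * n ^ 2 + 24 ≤ 3 * t n + 19 * n ∧
  n * (n - 3) + (n - 4).choose 2 ≤ tgen n

end Pool.Agent.Helper30.TG
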